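import Mathlib

set_option autoImplicit false

namespace Pool.Agent.Results.MP_5e3b67_co.NoLocalMap

open Finset

/-- The parity function on the cube. -/
def parity {n : ℕ} (x : Fin n → Bool) : Bool :=
  decide (Odd (univ.filter (fun i => x i = true)).card)

/-- Every output coordinate of `φ` is determined by at most `K` input coordinates. -/
def IsLocal {n : ℕ} (K : ℕ) (φ : (Fin n → Bool) → (Fin n → Bool)) : Prop :=
  ∀ i, ∃ S : Finset (Fin n), S.card ≤ K ∧ ∀ x y, (∀ j ∈ S, x j = y j) → φ x i = φ y i

/-- `ψ` is `L`-Lipschitz for the Hamming distance. -/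
def IsLip {n : ℕ} (L : ℝ) (ψ : (Fin n → Bool) → (Fin n → Bool)) : Prop :=
  ∀ x y, (hammingDist (ψ x) (ψ y) : ℝ) ≤ L * hammingDist x y

theorem kernel {ι α : Type} [Fintype ι] [DecidableEq ι] [DecidableEq α] (K : ℕ) (C : ι → Finset α) (d : ℕ) :
    ∀ Z : Finset α, (∀ j, (C j).card ≤ Z.card + d) →
      (K + 2) ^ (d + 1) ≤ (univ.filter (fun j => Z ⊆ C j)).card →
      ∃ Z', Z ⊆ Z' ∧ ∀ S : Finset α, S.card ≤ K →
        2 ≤ (univ.filter (fun j => Z' ⊆ C j ∧ Disjoint (C j \ Z') S)).card := by
  induction d with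
  | zero =>
    intro Z hZ hc
    refine ⟨Z, Subset.rfl, fun S _ => ?_⟩
    refine le_trans (le_trans (by simp) hc) (card_le_card fun j hj => ?_)
    simp only [mem_filter, mem_univ, true_and] at hj ⊢
    have : Z = C j := eq_of_subset_of_card_le hj (by simpa using hZ j)
    simp [← this]
  | succ d ih =>
    intro Z hZ hc
    by_cases h : ∃ a, a ∉ Z ∧ (K + 2) ^ (d + 1) ≤ (univ.filter (fun j => insert a Z ⊆ C j)).card
    · obtain ⟨a, ha, h⟩ := h
      obtain ⟨Z', h1, h2⟩ := ih (insert a Z) (fun j => by
        rw [card_insert_of_notMem ha]; have := hZ j; omega) h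
      exact ⟨Z', (subset_insert a Z).trans h1, h2⟩
    · push Not at h
      refine ⟨Z, Subset.rfl, fun S hS => ?_⟩
      have hsub : univ.filter (fun j => Z ⊆ C j) ⊆
          univ.filter (fun j => Z ⊆ C j ∧ Disjoint (C j \ Z) S) ∪
            (S \ Z).biUnion (fun a => univ.filter (fun j => insert a Z ⊆ C j)) := by
        intro j hj
        simp only [mem_filter, mem_univ, true_and, mem_union, mem_biUnion] at hj ⊢
        by_cases hd : Disjoint (C j \ Z) S
        · exact Or.inl ⟨hj, hd⟩
        · obtain ⟨a, h1, h2⟩ := not_disjoint_iff.1 hd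
          rw [mem_sdiff] at h1
          exact Or.inr ⟨a, mem_sdiff.2 ⟨h2, h1.2⟩, insert_subset h1.1 hj⟩
      have h1 := (card_le_card hsub).trans (card_union_le _ _)
      have h2 : ((S \ Z).biUnion (fun a => univ.filter (fun j => insert a Z ⊆ C j))).card ≤
          K * (K + 2) ^ (d + 1) := by
        refine card_biUnion_le.trans ?_
        calc _ ≤ ∑ _a ∈ S \ Z, (K + 2) ^ (d + 1) :=
              sum_le_sum fun a ha => (h a (mem_sdiff.1 ha).2).le
          _ ≤ _ := by
              rw [sum_const, smul_eq_mul]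
              exact Nat.mul_le_mul_right _ ((card_le_card sdiff_subset).trans hS)
      have h3 : 1 ≤ (K + 2) ^ (d + 1) := Nat.one_le_pow _ _ (by omega)
      rw [pow_succ] at hc
      nlinarith

/-- Negative answer to Q1: for all `K, L` and every large dimension, a `K`-local bijection
carrying the dictator function to parity has an inverse that is not `L`-Lipschitz. -/
theorem result (K : ℕ) (L : ℝ) : ∃ n₀ : ℕ, ∀ n ≥ n₀,
    ∀ φ : (Fin (n + 1) → Bool) ≃ (Fin (n + 1) → Bool),
      (∀ x, parity (φ x) = x 0) → IsLocal K φ → ¬ IsLip L φ.symm := by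
  refine ⟨(K + 2) ^ (⌈L⌉₊ + 1), fun n hn φ hφ hloc hlip => ?_⟩
  let y0 : Fin (n + 1) → Bool := fun _ => false
  let e : Fin (n + 1) → Fin (n + 1) → Bool := fun j i => decide (i = j)
  let x := φ.symm y0
  let C : Fin (n + 1) → Finset (Fin (n + 1)) := fun j => univ.filter (fun i => x i ≠ φ.symm (e j) i)
  have hC : ∀ j, (C j).card ≤ ⌈L⌉₊ := by
    intro j
    have h1 := hlip y0 (e j)
    have h2 : hammingDist y0 (e j) = 1 := by
      unfold hammingDist
      rw [card_eq_one]
      exact ⟨j, by ext i; simp [y0, e]⟩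
    rw [h2] at h1
    have h3 : ((C j).card : ℝ) ≤ ⌈L⌉₊ := le_trans (by simpa [hammingDist] using h1) (Nat.le_ceil L)
    exact_mod_cast h3
  have h0 : ∀ j, (0 : Fin (n + 1)) ∈ C j := by
    intro j
    have a1 := hφ x
    have a2 := hφ (φ.symm (e j))
    simp only [x, Equiv.apply_symm_apply] at a1 a2
    have b1 : parity y0 = false := by simp [parity, y0]
    have b2 : parity (e j) = true := by
      have : univ.filter (fun i => e j i = true) = {j} := by ext i; simp [e]
      simp [parity, this]
    simp only [C, mem_filter, mem_univ, true_and, x]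
    rw [← a1, ← a2, b1, b2]
    simp
  obtain ⟨Z, hZ, hS⟩ := kernel K C ⌈L⌉₊ {0} (fun j => by have := hC j; omega) (by
    rw [filter_true_of_mem (fun j _ => singleton_subset_iff.2 (h0 j))]
    simp; omega)
  let x' : Fin (n + 1) → Bool := fun i => if i ∈ Z then !x i else x i
  have key : φ x' = y0 := by
    funext i
    obtain ⟨S, hS1, hS2⟩ := hloc i
    obtain ⟨j, hj, hji⟩ := exists_mem_ne (hS S hS1) i
    simp only [mem_filter, mem_univ, true_and] at hj
    rw [hS2 x' (φ.symm (e j)), Equiv.apply_symm_apply]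
    · simp [e, y0, hji.symm]
    · intro t ht
      by_cases htZ : t ∈ Z
      · have := hj.1 htZ
        simp only [C, mem_filter, mem_univ, true_and] at this
        simp only [x', htZ, if_true]
        revert this
        cases x t <;> cases φ.symm (e j) t <;> simp
      · have : t ∉ C j := fun h => disjoint_left.1 hj.2 (mem_sdiff.2 ⟨h, htZ⟩) ht
        simp only [C, mem_filter, mem_univ, true_and, not_not] at this
        simp [x', htZ, this]
  have : x' = x := by simp only [x]; rw [← key, Equiv.symm_apply_apply]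
  have := congrFun this 0
  simp [x', hZ (mem_singleton_self 0)] at this

end Pool.Agent.Results.MP_5e3b67_co.NoLocalMap
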